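import Pool.Agent.Lib.MP_7836d5_lc.CPT.Final

set_option autoImplicit false

open Pool.Agent.Lib.MP_7836d5_lc.LP Pool.Agent.Lib.MP_7836d5_lc.CPT in
/-- No program of choiceless computation with counting decides the `k`-step halting problem with
`f k * n ^ c` objects, whatever the time bound and the atom-free first stage. -/
theorem Pool.Agent.Results.MP_7836d5_lc.Choiceless.result :
    ¬ ∃ (step halt out : Tm Voc) (x₀ T : ℕ → ℕ → ℕ) (f : ℕ → ℕ) (c : ℕ),
      (∀ n k, Pure n (x₀ n k)) ∧
      ∀ (m m' : ℕ) (q0 qh : Fin m) (bl : Fin m')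
        (δ : Fin m × Fin m' × Fin m × Fin m' × Bool → Bool) (k : ℕ), 0 < k →
        (Accepts step halt out (m + m') (tmRel q0 qh bl δ) (x₀ (m + m') k) (T (m + m') k)
          (f k * (m + m') ^ c) ↔ Halts q0 qh bl k δ) :=
  not_fpt
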