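import Pool.Agent.Lib.MP_7836d5_lc.LP.StarRef
import Pool.Agent.Lib.MP_7836d5_lc.LP.StarComplete

set_option autoImplicit false

open Pool.Agent.Lib.MP_7836d5_lc Pool.Agent.Lib.MP_7836d5_lc.LP in
/-- `k`-clique formulas need size `n ^ Ω(k / t)` in a dag-like system with products of at most `t`
derived lines and semantic steps of fan-in `t`. For `t = 2` it contains the Lovász-Schrijver
systems with squares and with products of two derived lines, Sherali-Adams and semantic cutting
planes. -/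
theorem Pool.Agent.Results.MP_7836d5_lc.LovaszSchrijver.result :
    ∃ C k0 : ℕ, 0 < C ∧ ∀ k, k0 ≤ k → ∀ n, k ^ (C * k) ≤ n →
      ∃ (G : SimpleGraph (Fin n)) (part : Fin n → Fin k), G.CliqueFree k ∧
        (∀ u v, G.Adj u v → part u ≠ part v) ∧
        ∀ t s, 0 < t → LSStar (cliqueCNF G k) t s ∨ LSStar (blockCNF G part) t s →
          k0 * t ≤ k → n ^ k ≤ s ^ (C * t) :=
  star_bound

open Pool.Agent.Lib.MP_7836d5_lc Pool.Agent.Lib.MP_7836d5_lc.LP in
/-- The earlier statement, for the system `LSRef`. -/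
theorem Pool.Agent.Results.MP_7836d5_lc.LovaszSchrijver.old :
    ∃ C k0 : ℕ, 0 < C ∧ ∀ k, k0 ≤ k → ∀ n, k ^ (C * k) ≤ n →
      ∃ (G : SimpleGraph (Fin n)) (part : Fin n → Fin k), G.CliqueFree k ∧
        (∀ u v, G.Adj u v → part u ≠ part v) ∧
        ∀ s, LSRef (cliqueCNF G k) s ∨ LSRef (blockCNF G part) s → n ^ k ≤ s ^ C := by
  obtain ⟨C, k0, hC, h⟩ := Pool.Agent.Results.MP_7836d5_lc.LovaszSchrijver.result
  refine ⟨C * 2, k0 * 2 + 1, by omega, fun k hk n hn => ?_⟩
  obtain ⟨G, part, h1, h2, h3⟩ := h k (by omega) n ((Nat.pow_le_pow_right (by omega)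
    (Nat.mul_le_mul_right k (by omega))).trans hn)
  exact ⟨G, part, h1, h2, fun s hs => h3 2 s two_pos (hs.imp LSRef.star LSRef.star) (by omega)⟩

open Pool.Agent.Lib.MP_7836d5_lc Pool.Agent.Lib.MP_7836d5_lc.LP in
/-- Refutations exist: the hypothesis of `result` holds for some size. -/
theorem Pool.Agent.Results.MP_7836d5_lc.LovaszSchrijver.exists_refutation {n k : ℕ}
    (G : SimpleGraph (Fin n)) (hG : G.CliqueFree k) (t : ℕ) :
    LSStar (cliqueCNF G k) t (2 ^ (k * n)) :=
  clique_star hG t
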