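import Pool.Agent.Lib.MP_7836d5_lc.LP.HaltNum
import Pool.Agent.Lib.MP_7836d5_lc.LP.Feas

set_option autoImplicit false

open Pool.Agent.Lib.MP_7836d5_lc.LP in
/-- Monotone linear-programming circuits for the `k`-step halting problem of machines with `n`
states and `n` symbols have size `n ^ Ω(√k)`. -/
theorem Pool.Agent.Results.MP_7836d5_lc.MonotoneLP.result :
    ∃ C k0 : ℕ, 0 < C ∧ ∀ k, k0 ≤ k → ∀ n, k ^ C ≤ n → ∀ q0 qh bl : Fin n, q0 ≠ qh →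
      ∀ s, MLP (Halts q0 qh bl k) s → n ^ Nat.sqrt k ≤ s ^ C :=
  halt_bound

namespace Pool.Agent.Results.MP_7836d5_lc.MonotoneLP

open Pool.Agent.Lib.MP_7836d5_lc.LP

/-- The form of Q1: no size `f k * n ^ c`. -/
theorem no_fpt_size : ¬ ∃ (f : ℕ → ℕ) (c : ℕ), ∀ k n, ∀ q0 qh bl : Fin n, q0 ≠ qh →
    ∃ s ≤ f k * n ^ c, MLP (Halts q0 qh bl k) s := by
  rintro ⟨f, c, h⟩
  obtain ⟨C, k0, -, hC⟩ := result
  obtain ⟨r, h1, h2⟩ : ∃ r, k0 ≤ r * r ∧ (c + 1) * C < r :=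
    ⟨k0 + (c + 1) * C + 1, by nlinarith [Nat.zero_le ((c + 1) * C)], by omega⟩
  obtain ⟨n, a1, a2⟩ : ∃ n, (r * r) ^ C ≤ n + 2 ∧ f (r * r) ≤ n + 2 :=
    ⟨(r * r) ^ C + f (r * r), by omega, by omega⟩
  obtain ⟨s, h3, h4⟩ := h (r * r) (n + 2) 0 1 0 Fin.zero_ne_one
  have h5 := hC _ h1 _ a1 0 1 0 Fin.zero_ne_one s h4
  rw [Nat.sqrt_eq] at h5
  have h6 : s ≤ (n + 2) ^ (c + 1) := h3.trans (by
    rw [pow_succ']
    exact Nat.mul_le_mul_right _ a2)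
  have h7 := h5.trans (Nat.pow_le_pow_left h6 C)
  rw [← pow_mul, Nat.pow_le_pow_iff_right (by omega)] at h7
  omega

/-- Monotone separation complexity (Hrubeš): a projection `P` of a polyhedron with `s` inequalities
in `s` extra variables such that a table is accepted iff it lies above a point of `P`. -/
theorem separation : ∃ C k0 : ℕ, 0 < C ∧ ∀ k, k0 ≤ k → ∀ n, k ^ C ≤ n → ∀ q0 qh bl : Fin n,
    q0 ≠ qh → ∀ (s : ℕ) (A : Fin s → Fin s → ℝ)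
      (D : Fin s → Fin n × Fin n × Fin n × Fin n × Bool → ℝ) (b : Fin s → ℝ),
      (∀ δ, Halts q0 qh bl k δ ↔ ∃ (x : Fin n × Fin n × Fin n × Fin n × Bool → ℝ) (w : Fin s → ℝ),
        (∀ i, ∑ j, A i j * w j + ∑ e, D i e * x e ≤ b i) ∧
          ∀ e, x e ≤ if δ e = true then 1 else 0) →
      n ^ Nat.sqrt k ≤ (3 * s + 10 * n ^ 4 + 1) ^ C := by
  obtain ⟨C, k0, h0, hC⟩ := result
  refine ⟨C, k0, h0, fun k hk n hn q0 qh bl hq s A D b h => ?_⟩
  have : Nonempty (Fin n) := ⟨q0⟩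
  convert hC k hk n hn q0 qh bl hq _ (mlp_of_sep A D b h) using 2
  simp only [Fintype.card_prod, Fintype.card_fin, Fintype.card_bool]
  ring

/-- Real monotone span programs with `s` labelled vectors in dimension `s`. -/
theorem span_programs : ∃ C k0 : ℕ, 0 < C ∧ ∀ k, k0 ≤ k → ∀ n, k ^ C ≤ n → ∀ q0 qh bl : Fin n,
    q0 ≠ qh → ∀ (s : ℕ) (v : Fin s → Fin s → ℝ) (t : Fin s → ℝ)
      (lab : Fin s → Fin n × Fin n × Fin n × Fin n × Bool),
      (∀ δ, Halts q0 qh bl k δ ↔ t ∈ Submodule.span ℝ (v '' {j | δ (lab j) = true})) →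
      n ^ Nat.sqrt k ≤ (6 * s + 4 * n ^ 4 + 1) ^ C := by
  obtain ⟨C, k0, h0, hC⟩ := result
  refine ⟨C, k0, h0, fun k hk n hn q0 qh bl hq s v t lab h => ?_⟩
  have : Nonempty (Fin n) := ⟨q0⟩
  convert hC k hk n hn q0 qh bl hq _ (mlp_of_span v t lab h) using 2
  simp only [Fintype.card_prod, Fintype.card_fin, Fintype.card_bool]
  ring

/-- The hypothesis of `result` can be met: the halting function has a circuit of some size. -/
theorem exists_circuit (k n : ℕ) (q0 qh bl : Fin n) : ∃ s, MLP (Halts q0 qh bl k) s := by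
  have : Nonempty (Fin n) := ⟨q0⟩
  refine mlp_of_mono fun p q h ⟨j, h1, c, h2, h3, h4⟩ => ⟨j, h1, c, h2, fun i hi => ?_, h4⟩
  obtain ⟨a, d, h5, h6⟩ := h3 i hi
  exact ⟨a, d, h _ h5, h6⟩

end Pool.Agent.Results.MP_7836d5_lc.MonotoneLP
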