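import Pool.Agent.Lib.MP_7836d5_lc.Neg.Final

set_option autoImplicit false

open Pool.Agent.Lib.MP_7836d5_lc.LP Pool.Agent.Lib.MP_7836d5_lc.Neg in
/-- Circuits with few negations for the `k`-step halting problem of machines with `n` states and
`n` symbols are large. -/
theorem Pool.Agent.Results.MP_7836d5_lc.NegationLimited.result (n k l v s t : ℕ)
    (q0 qh bl : Fin n) (hq : q0 ≠ qh) (h1 : 2000 * v ^ 2 * Nat.log 2 n ≤ l * k)
    (h2 : 2 ^ t * 4 ^ l * (k * Nat.log 2 n) ^ 8 ≤ n ^ 4)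
    (h : NegCirc (Halts q0 qh bl k) s t) : 2 ^ (l * v) ≤ s * n ^ 4 :=
  neg_bound n k l v s t q0 qh bl hq h1 h2 h
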